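import Mathlib

namespace Pool.Agent.Results.MP_7e7193_an.Abs

open Set Filter Topology Metric

variable {X : Type*} [NormedAddCommGroup X] [NormedSpace ℝ X] [CompleteSpace X]

/-- Ekeland-type principle -/
lemma eke {K : Set X} (hK : IsClosed K) (f : StrongDual ℝ X) (hb : ∀ z ∈ K, f z ≤ 1) {k : ℝ}
    (hk : 0 < k) {x : X} (hx : x ∈ K) :
    ∃ y ∈ K, k * ‖y - x‖ ≤ f y - f x ∧ ∀ z ∈ K, f z - f y ≤ k * ‖z - y‖ := by
  let S : X → Set X := fun a => {z | z ∈ K ∧ k * ‖z - a‖ ≤ f z - f a}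
  have tr : ∀ {a b c}, b ∈ S a → c ∈ S b → c ∈ S a := fun {a b c} h g => ⟨g.1, by
    have := mul_le_mul_of_nonneg_left (norm_sub_le_norm_sub_add_norm_sub c b a) hk.le
    linarith [h.2, g.2]⟩
  have step : ∀ (n : ℕ) (a : K), ∃ b : K, b.1 ∈ S a ∧ ∀ c ∈ S a, f c - f b ≤ (1 / 2) ^ n := by
    intro n a
    obtain ⟨_, ⟨b, hb', rfl⟩, h⟩ := Real.add_neg_lt_sSup (s := f '' S a) ⟨_, a, ⟨a.2, by simp⟩, rfl⟩
      (show -(1 / 2 : ℝ) ^ n < 0 by simp)
    refine ⟨⟨b, hb'.1⟩, hb', fun c hc => ?_⟩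
    have := le_csSup (s := f '' S a) ⟨1, by rintro _ ⟨z, hz, rfl⟩; exact hb z hz.1⟩ ⟨c, hc, rfl⟩
    linarith
  choose g h1 h2 using step
  let u : ℕ → K := fun n => Nat.rec ⟨x, hx⟩ g n
  have mono : ∀ n m, n ≤ m → (u m).1 ∈ S (u n).1 := fun n m h => by
    induction h with
    | refl => exact ⟨(u n).2, by simp⟩
    | step _ ih => exact tr ih (h1 _ _)
  have small : ∀ n c, c ∈ S (u (n + 1)) → ‖c - u (n + 1)‖ ≤ (1 / 2) ^ n / k := fun n c hc => by
    rw [le_div_iff₀' hk]; exact hc.2.trans (h2 n (u n) c (tr (h1 _ _) hc))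
  have t0 : Tendsto (fun n : ℕ => (1 / 2 : ℝ) ^ n / k) atTop (𝓝 0) := by
    simpa using (tendsto_pow_atTop_nhds_zero_of_lt_one (r := (1 / 2 : ℝ)) (by norm_num)
      (by norm_num)).div_const k
  obtain ⟨y, hy⟩ := cauchySeq_tendsto_of_complete (u := fun n => (u (n + 1)).1)
    (cauchySeq_of_le_tendsto_0' _ (fun n m h => by
      rw [dist_comm, dist_eq_norm]; exact small n _ (mono (n + 1) (m + 1) (by omega))) t0)
  have yS : ∀ n, y ∈ S (u n).1 := fun n =>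
    (hK.inter (isClosed_le (f := fun z => k * ‖z - (u n).1‖) (g := fun z => f z - f (u n).1)
      (by fun_prop) (by fun_prop))).mem_of_tendsto hy
      ((eventually_ge_atTop n).mono fun m h => mono n (m + 1) (by omega))
  refine ⟨y, (yS 0).1, (yS 0).2, fun z hz => not_lt.1 fun h => ?_⟩
  have : Tendsto (fun n => (u (n + 1)).1) atTop (𝓝 z) :=
    tendsto_iff_norm_sub_tendsto_zero.2 (squeeze_zero (fun _ => norm_nonneg _) (fun n => by
      rw [norm_sub_rev]; exact small n z (tr (yS (n + 1)) ⟨hz, h.le⟩)) t0)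
  simp [tendsto_nhds_unique this hy] at h

omit [CompleteSpace X] in
lemma nle (G : StrongDual ℝ X) {c : ℝ} (h : ∀ a, ‖a‖ < 1 → G a ≤ c) : ‖G‖ ≤ c := by
  refine not_lt.1 fun hc => ?_
  obtain ⟨a, h1, h2⟩ := G.exists_lt_apply_of_lt_opNorm hc
  have := h (-a) (by simpa using h1)
  rw [map_neg] at this
  exact absurd (abs_le.2 ⟨by linarith, h a h1⟩) (not_le.2 h2)

omit [CompleteSpace X] in
lemma app (G : StrongDual ℝ X) {a : X} (h : ‖a‖ ≤ 1) : |G a| ≤ ‖G‖ := G.unit_le_opNorm a h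

omit [CompleteSpace X] in
lemma mult (f : StrongDual ℝ X) {x y : X} (hx : ‖x‖ ≤ 1) {k : ℝ} (hk : 0 < k) (y1 : ‖y‖ ≤ 1)
    (y2 : ‖y - x‖ ≤ 1) (h : ∀ z, ‖z‖ ≤ 1 ∧ ‖z - x‖ ≤ 1 → f z - f y ≤ k * ‖z - y‖) :
    ∃ G H : StrongDual ℝ X, G y = ‖G‖ ∧ H (y - x) = ‖H‖ ∧ ‖f - G - H‖ ≤ k := by
  obtain ⟨Φ, u, hU, hV⟩ := geometric_hahn_banach_open (E := X × X × X × ℝ)
    (s := ball 0 1 ×ˢ ball 0 1 ×ˢ {p | k * ‖p.1‖ < p.2})
    (t := range fun z => (z, z - x, z - y, f z - f y))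
    ((convex_ball _ _).prod ((convex_ball _ _).prod (by
      simpa using ((convexOn_univ_norm (E := X)).smul hk.le).convex_strict_epigraph)))
    (isOpen_ball.prod (isOpen_ball.prod (isOpen_lt (by fun_prop) (by fun_prop))))
    (by
      rintro _ ⟨a, rfl⟩ _ ⟨b, rfl⟩ s t - - e
      obtain rfl : s = 1 - t := by linarith
      refine ⟨(1 - t) • a + t • b, ?_⟩
      ext <;> simp <;> first | module | ring)
    (disjoint_right.2 (by
      rintro _ ⟨z, rfl⟩ ⟨a, b, c⟩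
      exact absurd (h z ⟨(mem_ball_zero_iff.1 a).le, (mem_ball_zero_iff.1 b).le⟩) (not_le.2 c)))
  obtain ⟨G, H, M, τ, e⟩ : ∃ (G H M : StrongDual ℝ X) (τ : ℝ), ∀ a b c t,
      Φ (a, b, c, t) = G a + H b + M c - τ * t := by
    refine ⟨Φ.comp (.inl _ _ _), Φ.comp ((ContinuousLinearMap.inr _ _ _).comp (.inl _ _ _)),
      Φ.comp ((ContinuousLinearMap.inr _ _ _).comp ((ContinuousLinearMap.inr _ _ _).comp
      (.inl _ _ _))), -Φ (0, 0, 0, 1), fun a b c t => ?_⟩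
    have : (a, b, c, t) = (a, 0, 0, 0) + (0, b, 0, 0) + (0, 0, c, 0) + t • (0, 0, 0, 1) := by simp
    rw [this, map_add, map_add, map_add, map_smul]
    simp [Prod.mk_zero_zero, mul_comm]
  have hU' : ∀ a b c t, ‖a‖ < 1 → ‖b‖ < 1 → k * ‖c‖ < t → G a + H b + M c - τ * t < u :=
    fun a b c t h1 h2 h3 => e a b c t ▸ hU _ ⟨by simpa, by simpa, h3⟩
  have hV' : ∀ w, u ≤ G y + H (y - x) + (G + H + M - τ • f) w := fun w => by
    have := hV _ ⟨y + w, rfl⟩
    simp only [e, map_add, map_sub] at this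
    simp; linarith
  have L0 : G + H + M - τ • f = 0 := by
    ext w
    by_contra c
    have := hV' (((u - G y - H (y - x) - 1) / (G + H + M - τ • f) w) • w)
    rw [map_smul, smul_eq_mul, div_mul_cancel₀ _ c] at this
    linarith
  have ray : ∀ c t, k * ‖c‖ < t → M c ≤ τ * t := fun c t h => not_lt.1 fun p => by
    have q : 0 < (|u| + 1) / (M c - τ * t) := div_pos (by positivity) (by linarith)
    have := hU' 0 0 (((|u| + 1) / (M c - τ * t)) • c) ((|u| + 1) / (M c - τ * t) * t) (by simp)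
      (by simp) (by rw [norm_smul, Real.norm_of_nonneg q.le]; nlinarith)
    have e := div_mul_cancel₀ (|u| + 1) (show M c - τ * t ≠ 0 by linarith)
    simp only [map_zero, map_smul, smul_eq_mul] at this
    nlinarith [le_abs_self u]
  have τ0 : 0 ≤ τ := by simpa using ray 0 1 (by simp)
  have nM : ‖M‖ ≤ τ * k := nle M fun a ha => ray a k (by nlinarith)
  have gh : ∀ a b, ‖a‖ < 1 → ‖b‖ < 1 → G a + H b ≤ u := fun a b h1 h2 =>
    le_of_forall_pos_lt_add fun ε ε0 => by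
      have := hU' a b 0 (ε / (τ + 1)) h1 h2 (by simp; positivity)
      have e := div_mul_cancel₀ ε (show τ + 1 ≠ 0 by positivity)
      have : 0 < ε / (τ + 1) := by positivity
      simp only [map_zero] at *
      nlinarith
  have nGH : ‖H‖ ≤ u - ‖G‖ := nle H fun b hb => by
    linarith [nle G (c := u - H b) fun a ha => by linarith [gh a b ha hb]]
  have := hV' 0
  rw [map_zero] at this
  have g1 := (le_abs_self _).trans (app G y1)
  have g2 := (le_abs_self _).trans (app H y2)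
  have τ1 : 0 < τ := τ0.lt_of_ne fun c => by
    subst c
    have M0 : M = 0 := norm_le_zero_iff.1 (by simpa using nM)
    have : H = -G := by
      rw [M0, zero_smul, add_zero, sub_zero] at L0; exact eq_neg_of_add_eq_zero_right L0
    subst this
    have := hU' 0 0 0 1 (by simp) (by simp) (by simp)
    have g3 := (le_abs_self _).trans (app G hx)
    simp at *
    linarith [norm_nonneg G]
  refine ⟨τ⁻¹ • G, τ⁻¹ • H, ?_, ?_, ?_⟩
  · simp [norm_smul, abs_of_pos τ1, τ1.ne']; linarith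
  · rw [norm_smul, ContinuousLinearMap.smul_apply, show H (y - x) = ‖H‖ by linarith]
    simp [abs_of_pos τ1]
  · have : f - τ⁻¹ • G - τ⁻¹ • H = τ⁻¹ • M := by
      have e : f = τ⁻¹ • (G + H + M) := by
        rw [sub_eq_zero.1 L0, smul_smul, inv_mul_cancel₀ τ1.ne', one_smul]
      rw [e]; module
    rw [this, norm_smul, norm_inv, Real.norm_of_nonneg τ0, inv_mul_le_iff₀ τ1]
    exact nM

omit [CompleteSpace X] in
lemma nrm {f G : StrongDual ℝ X} {y : X} (y1 : ‖y‖ ≤ 1) (h : |G y| = ‖G‖) (h0 : 0 < ‖G‖) :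
    ∃ g : StrongDual ℝ X, ‖y‖ = 1 ∧ ‖g‖ = 1 ∧ |g y| = 1 ∧ ‖f - g‖ ≤ ‖f - G‖ + |1 - ‖G‖| := by
  refine ⟨‖G‖⁻¹ • G, y1.antisymm ?_, by simp [norm_smul, h0.ne'], by simp [abs_mul, h, h0.ne'], ?_⟩
  · have := G.le_opNorm y
    rw [Real.norm_eq_abs, h] at this
    nlinarith
  · refine (norm_sub_le_norm_sub_add_norm_sub f G _).trans_eq ?_
    rw [show G - ‖G‖⁻¹ • G = (1 - ‖G‖⁻¹) • G by module, norm_smul, Real.norm_eq_abs, abs_sub_comm 1 ‖G‖,
      ← abs_of_pos h0, ← abs_mul, abs_of_pos h0, sub_mul, inv_mul_cancel₀ h0.ne', one_mul]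

theorem result (ε : ℝ) (ε0 : 0 < ε) (ε2 : ε < 2) (δ : ℝ) (hδ : min (√(2 * ε)) 1 < δ)
    (x : X) (f : StrongDual ℝ X) (hx : ‖x‖ = 1) (hf : ‖f‖ = 1) (h : 1 - ε < f x) :
    ∃ (y : X) (g : StrongDual ℝ X), ‖y‖ = 1 ∧ ‖g‖ = 1 ∧ |g y| = 1 ∧ ‖x - y‖ < δ ∧ ‖f - g‖ < δ := by
  have cl : ∀ x : X, IsClosed {z : X | ‖z‖ ≤ 1 ∧ ‖z - x‖ ≤ 1} := fun x =>
    (isClosed_le continuous_norm continuous_const).inter
      (isClosed_le (f := fun z => ‖z - x‖) (by fun_prop) continuous_const)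
  have bd : ∀ z : X, ‖z‖ ≤ 1 → f z ≤ 1 := fun z hz => (le_abs_self _).trans (hf ▸ app f hz)
  rcases min_lt_iff.1 hδ with hδ | hδ
  · obtain ⟨k, k0, kk, rk⟩ : ∃ k, 0 < k ∧ 2 * k ^ 2 = ε ∧ √(2 * ε) = 2 * k :=
      ⟨√(2 * ε) / 2, by positivity, by rw [div_pow, Real.sq_sqrt (by positivity)]; ring, by ring⟩
    have k1 : k < 1 := by nlinarith
    obtain ⟨y, ⟨y1, y2⟩, h1, h2⟩ := eke (cl 0) f (fun z hz => bd z hz.1) k0 (x := x) (by simp [hx])
    obtain ⟨G, H, g1, g2, g3⟩ := mult f (by simp) k0 y1 y2 h2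
    rw [sub_zero] at g2
    rw [sub_sub] at g3
    have n1 := abs_le.1 ((abs_norm_sub_norm_le f (G + H)).trans g3)
    rw [hf] at n1
    obtain ⟨g, a, b, c, d⟩ := nrm (f := f) (G := G + H) y1 ((app _ y1).antisymm
      ((norm_add_le _ _).trans (by simpa [g1, g2] using le_abs_self _))) (by linarith)
    refine ⟨y, g, a, b, c, ?_, by linarith [abs_le.2 n1]⟩
    rw [norm_sub_rev]
    nlinarith [bd y y1]
  · obtain ⟨k, k0, k1, k2⟩ : ∃ k, 0 < k ∧ k < 1 ∧ 1 + 3 * k < δ :=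
      ⟨min (1 / 2) ((δ - 1) / 4), lt_min (by norm_num) (by linarith),
        (min_le_left _ _).trans_lt (by norm_num), by linarith [min_le_right (1 / 2) ((δ - 1) / 4)]⟩
    obtain ⟨y, ⟨y1, y2⟩, -, h2⟩ := eke (cl x) f (fun z hz => bd z hz.1) k0 (x := x) (by simp [hx])
    obtain ⟨G, H, g1, g2, g3⟩ := mult f hx.le k0 y1 y2 h2
    have e1 := abs_le.1 ((app _ y1).trans g3)
    have e2 := abs_le.1 ((app _ y2).trans g3)
    have e3 := abs_le.1 (app G hx.le)
    have e4 := abs_le.1 (app H hx.le)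
    have e5 := bd y y1
    have e6 := bd _ y2
    have e7 := norm_add_le (f - G - H) H
    have e8 := norm_add_le (f - G - H) G
    have e9 := norm_add_le (f - G) G
    rw [sub_add_cancel] at e7 e9
    rw [show f - G - H + G = f - H by abel] at e8
    simp only [ContinuousLinearMap.sub_apply, map_sub] at e1 e2 e6 g2
    rcases le_total ‖H‖ ‖G‖ with c | c
    · obtain ⟨g, a, b, c, d⟩ := nrm (f := f) y1 (by rw [g1, abs_norm]) (by linarith)
      refine ⟨y, g, a, b, c, by rw [norm_sub_rev]; linarith, ?_⟩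
      rcases abs_cases (1 - ‖G‖) with q | q <;> linarith
    · obtain ⟨g, a, b, c, d⟩ := nrm (f := f) (G := H) y2 (by rw [map_sub, g2, abs_norm])
        (by linarith)
      refine ⟨x - y, g, by rwa [norm_sub_rev], b, by rwa [← abs_neg, ← map_neg, neg_sub],
        by rw [sub_sub_cancel]; linarith, ?_⟩
      rcases abs_cases (1 - ‖H‖) with q | q <;> linarith

end Pool.Agent.Results.MP_7e7193_an.Abs
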